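import Pool.Agent.Y133.Half.Seq

/-!
# Log-convex sequences: finite level versions
-/

namespace Pool.Agent.X312.DL

open Pool.Agent.Y133.Half

lemma ratio_le_of_lt {α : ℕ → ℕ} (hpos : ∀ l, 0 < α l)
    (hconv : ∀ l, α (l + 1) ^ 2 ≤ α (l + 2) * α l) {c : ℝ} {l : ℕ}
    (h : (α (l + 1) : ℝ) < c * α l) {i : ℕ} (hi : i ≤ l) : (α (i + 1) : ℝ) ≤ c * α i := by
  by_contra hcon
  push Not at hcon
  exact absurd (ratio_mono hpos hconv hcon.le hi) (not_le.2 h)

lemma geom_le {α : ℕ → ℕ} {c : ℝ} (hc : 0 ≤ c) {l : ℕ}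
    (h : ∀ i < l, (α (i + 1) : ℝ) ≤ c * α i) : (α l : ℝ) ≤ c ^ l * α 0 := by
  induction l with
  | zero => simp
  | succ l ih =>
    calc (α (l + 1) : ℝ) ≤ c * α l := h l (Nat.lt_succ_self l)
      _ ≤ c * (c ^ l * α 0) :=
        mul_le_mul_of_nonneg_left (ih fun i hi => h i (hi.trans (Nat.lt_succ_self l))) hc
      _ = _ := by ring

/-- Bernoulli's inequality in the form which is used. -/
lemma close_pow {B η : ℝ} (hB : 0 ≤ B) (_hη0 : 0 ≤ η) (hη : η ≤ 1) (j : ℕ) {δ : ℝ}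
    (h : B ^ j * (j * η) ≤ δ) : B ^ j - δ ≤ (B * (1 - η)) ^ j := by
  have h1 : 1 + (j : ℝ) * (-η) ≤ (1 + (-η)) ^ j :=
    one_add_mul_le_pow (by linarith) j
  rw [mul_pow]
  have h2 : 0 ≤ B ^ j := pow_nonneg hB j
  have h3 : (1 : ℝ) - η = 1 + (-η) := by ring
  rw [h3]
  nlinarith [mul_le_mul_of_nonneg_left h1 h2]

/-- The real inequality which shows that the second case of the argument is good enough. -/
lemma key_real {L B x : ℝ} (q b N M l : ℕ) (hB : B = Real.log (b + 1))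
    (hb : 1 ≤ b) (hx : L = x * ((q + 1) * B)) (hx64 : 64 ≤ x) (hN : (N : ℝ) ≤ x / 16)
    (hM : M = N * (q + 1) + 2) (hl1 : Real.exp L ≤ 4 * l) (hl2 : (l : ℝ) + 2 ≤ Real.exp L) :
    ((N + 1 : ℕ) : ℝ) / 2 * (b : ℝ) ^ 2 * ((l : ℝ) + 2) ^ (b ^ 2) *
      (1 - 1 / (2 * M * (b : ℝ) ^ (2 * M))) ^ l ≤ 1 := by
  have hb' : (1 : ℝ) ≤ b := by exact_mod_cast hb
  have hlog2 : (0.69 : ℝ) < Real.log 2 := by
    have := Real.log_two_gt_d9
    linarith
  have hB0 : (0.69 : ℝ) < B := by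
    rw [hB]
    refine lt_of_lt_of_le hlog2 (Real.log_le_log (by norm_num) (by linarith))
  have hq : (0 : ℝ) ≤ q := Nat.cast_nonneg q
  have hqB : B ≤ (q + 1) * B := by nlinarith
  have hxB : 64 * B ≤ L := by
    rw [hx]
    nlinarith
  have hL44 : (44 : ℝ) ≤ L := by linarith
  have hqB' : (0.69 : ℝ) ≤ (q + 1) * B := by linarith
  have hxL : x ≤ 2 * L := by
    rw [hx]
    nlinarith
  have hMc : (M : ℝ) = N * (q + 1) + 2 := by rw [hM]; push_cast; ring
  have hMB : (M : ℝ) * B ≤ L / 16 + 2 * B := by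
    have h1 : (N : ℝ) * ((q + 1) * B) ≤ x / 16 * ((q + 1) * B) :=
      mul_le_mul_of_nonneg_right hN (by linarith)
    rw [hMc]
    have h2 : x / 16 * ((q + 1) * B) = L / 16 := by rw [hx]; ring
    nlinarith
  have hM2 : (2 : ℝ) ≤ M := by
    rw [hMc]
    have : (0 : ℝ) ≤ N * (q + 1) := by positivity
    linarith
  have hML : (M : ℝ) ≤ L := by
    have h3 : (0.69 : ℝ) * M ≤ L / 16 + 2 * B := by nlinarith
    have h4 : 2 * B ≤ L / 32 := by linarith
    linarith
  have hbB : (b : ℝ) ≤ Real.exp B := by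
    rw [hB, Real.exp_log (by linarith)]
    linarith
  have hb2M : (b : ℝ) ^ (2 * M) ≤ Real.exp (3 * L / 16) := by
    calc (b : ℝ) ^ (2 * M) ≤ Real.exp B ^ (2 * M) := pow_le_pow_left₀ (by linarith) hbB _
      _ = Real.exp (((2 * M : ℕ) : ℝ) * B) := (Real.exp_nat_mul _ _).symm
      _ ≤ Real.exp (3 * L / 16) := by
          apply Real.exp_le_exp.2
          push_cast
          nlinarith
  have hb2 : (b : ℝ) ^ 2 ≤ Real.exp (L / 32) := by
    calc (b : ℝ) ^ 2 ≤ Real.exp B ^ 2 := pow_le_pow_left₀ (by linarith) hbB _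
      _ = Real.exp (((2 : ℕ) : ℝ) * B) := (Real.exp_nat_mul _ _).symm
      _ ≤ Real.exp (L / 32) := by
          apply Real.exp_le_exp.2
          push_cast
          linarith
  set η : ℝ := 1 / (2 * M * (b : ℝ) ^ (2 * M)) with hη
  have hbM1 : (1 : ℝ) ≤ (b : ℝ) ^ (2 * M) := one_le_pow₀ hb'
  have hden : (0 : ℝ) < 2 * M * (b : ℝ) ^ (2 * M) := by positivity
  have hden1 : (1 : ℝ) ≤ 2 * M * (b : ℝ) ^ (2 * M) := by nlinarith
  have hη0 : 0 < η := by rw [hη]; positivity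
  have hη1 : η ≤ 1 := by rw [hη, div_le_one hden]; exact hden1
  -- the exponent
  have hexpo : (1 - η) ^ l ≤ Real.exp (-(η * l)) := by
    calc (1 - η) ^ l ≤ Real.exp (-η) ^ l :=
          pow_le_pow_left₀ (by linarith) (Real.one_sub_le_exp_neg η) _
      _ = Real.exp ((l : ℝ) * (-η)) := (Real.exp_nat_mul _ _).symm
      _ = _ := by congr 1; ring
  have hl0 : (0 : ℝ) < (l : ℝ) + 2 := by positivity
  -- the three factors
  have hf1 : ((N + 1 : ℕ) : ℝ) / 2 ≤ Real.exp L := by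
    have h5 : ((N + 1 : ℕ) : ℝ) / 2 ≤ L := by
      push_cast
      linarith
    exact h5.trans (by linarith [Real.add_one_le_exp L])
  have hf3 : ((l : ℝ) + 2) ^ (b ^ 2) ≤ Real.exp (L * Real.exp (L / 32)) := by
    calc ((l : ℝ) + 2) ^ (b ^ 2) ≤ Real.exp L ^ (b ^ 2) := pow_le_pow_left₀ hl0.le hl2 _
      _ = Real.exp (((b ^ 2 : ℕ) : ℝ) * L) := (Real.exp_nat_mul _ _).symm
      _ ≤ _ := by
          apply Real.exp_le_exp.2
          push_cast
          rw [mul_comm]
          exact mul_le_mul_of_nonneg_left hb2 (by linarith)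
  have hf2 : (b : ℝ) ^ 2 ≤ Real.exp L :=
    hb2.trans (Real.exp_le_exp.2 (by linarith))
  have he1 : (1 : ℝ) ≤ Real.exp (L / 32) := Real.one_le_exp (by linarith)
  have hmain : L + L + L * Real.exp (L / 32) ≤ η * l := by
    have h6 : L + L + L * Real.exp (L / 32) ≤ 3 * L * Real.exp (L / 32) := by nlinarith
    have h7 : 2 * (M : ℝ) * (b : ℝ) ^ (2 * M) ≤ 2 * L * Real.exp (3 * L / 16) := by
      apply mul_le_mul (by linarith) hb2M (by positivity) (by linarith)
    have h8 : 3 * L * Real.exp (L / 32) * (2 * M * (b : ℝ) ^ (2 * M)) ≤ l := by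
      have h9 : 3 * L * Real.exp (L / 32) * (2 * M * (b : ℝ) ^ (2 * M)) ≤
          3 * L * Real.exp (L / 32) * (2 * L * Real.exp (3 * L / 16)) :=
        mul_le_mul_of_nonneg_left h7 (by positivity)
      have h10 : 3 * L * Real.exp (L / 32) * (2 * L * Real.exp (3 * L / 16)) =
          6 * L ^ 2 * Real.exp (7 * L / 32) := by
        have : Real.exp (7 * L / 32) = Real.exp (L / 32) * Real.exp (3 * L / 16) := by
          rw [← Real.exp_add]; congr 1; ring
        rw [this]; ring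
      have h11 : 24 * L ^ 2 ≤ Real.exp (25 * L / 32) := by
        have h12 := Real.pow_div_factorial_le_exp (x := 25 * L / 32) (by linarith) 4
        refine le_trans ?_ h12
        have h13 : ((Nat.factorial 4 : ℕ) : ℝ) = 24 := by norm_num [Nat.factorial]
        rw [h13, le_div_iff₀ (by norm_num)]
        have h14 : (44 : ℝ) ^ 2 ≤ L ^ 2 := by gcongr
        have h15 : (0 : ℝ) ≤ L ^ 2 := by positivity
        nlinarith [mul_le_mul_of_nonneg_left h14 h15]
      have h16 : 24 * L ^ 2 * Real.exp (7 * L / 32) ≤ Real.exp L := by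
        have : Real.exp L = Real.exp (25 * L / 32) * Real.exp (7 * L / 32) := by
          rw [← Real.exp_add]; congr 1; ring
        rw [this]
        exact mul_le_mul_of_nonneg_right h11 (Real.exp_pos _).le
      rw [h10] at h9
      nlinarith
    refine h6.trans ?_
    rw [hη, one_div, inv_mul_eq_div, le_div_iff₀ hden]
    exact h8
  calc ((N + 1 : ℕ) : ℝ) / 2 * (b : ℝ) ^ 2 * ((l : ℝ) + 2) ^ (b ^ 2) * (1 - η) ^ l
      ≤ Real.exp L * Real.exp L * Real.exp (L * Real.exp (L / 32)) * Real.exp (-(η * l)) := by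
        have a1 : (0 : ℝ) ≤ ((N + 1 : ℕ) : ℝ) / 2 := by positivity
        have a2 : (0 : ℝ) ≤ (b : ℝ) ^ 2 := by positivity
        have a3 : (0 : ℝ) ≤ ((l : ℝ) + 2) ^ (b ^ 2) := by positivity
        have a4 : (0 : ℝ) ≤ (1 - η) ^ l := pow_nonneg (by linarith) _
        exact mul_le_mul (mul_le_mul (mul_le_mul hf1 hf2 a2 (Real.exp_pos _).le) hf3 a3
          (by positivity)) hexpo a4 (by positivity)
    _ = Real.exp (L + L + L * Real.exp (L / 32) - η * l) := by
        rw [← Real.exp_add, ← Real.exp_add, ← Real.exp_add]; congr 1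
    _ ≤ 1 := by
        rw [Real.exp_le_one_iff]
        linarith

end Pool.Agent.X312.DL
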