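import Pool.Agent.Y133.Half.DLaw
import Pool.Agent.X312.DL.Seq

/-!
# The zero-infinity law for numerical equivalence: effective version
-/

open CategoryTheory AlgebraicGeometry

universe u v

namespace Pool.Agent.X312.DL

open Module
open Pool.Agent.H914 Pool.Agent.H914.VarClass Pool.Agent.H914.VarClass.Obj
  Pool.Agent.H914.WeilCohomology Pool.Agent.Y133.Half Pool.Agent.Y133.Half.Sys

variable {k : Type u} [Field k] {𝒱 : VarClass k} {ops : CycleOps 𝒱}
  {W : WeilCohomology.{u, v} ops} {P Q Z Z' P' X : 𝒱.Obj} (S T : Sys W)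

/-- If the ratios of the sequence `al` are close to the square of the Betti number, all numerically
trivial operators on `P` are nilpotent. -/
lemma nilpotent_of_close {X : 𝒱.Obj} (hpos : ∀ l, 0 < S.al X l) {c : ℝ} (hc0 : 0 ≤ c) {l₀ : ℕ}
    (hl₀ : ∀ l ≥ l₀, c * S.al X l ≤ S.al X (l + 1)) {j : ℕ}
    (hc : ((finrank W.K (W.H X) : ℝ) ^ 2) ^ j - 1 < c ^ j)
    (hP : ∀ l, S.a (P.prod ((pw X l).prod (pw X l))) = S.al X (l + j))
    (hd : finrank W.K (W.H P) = finrank W.K (W.H X) ^ (2 * j))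
    {x : Module.End W.K (W.H P)} (hx : x ∈ S.NOp P P) : IsNilpotent x := by
  by_contra hn
  have h1 := ratio_pow hc0 hl₀ j l₀ le_rfl
  obtain ⟨g, hg, hgg, h0, hr⟩ := S.exists_idem hx hn ((pw X l₀).prod (pw X l₀))
  have h2 := S.r_add_le (Z := (pw X l₀).prod (pw X l₀)) g (1 - g)
  rw [add_sub_cancel, r_one, hr, zero_add, hP] at h2
  obtain ⟨hg', hdim⟩ := finrank_compl hgg
  have h3 := S.r_le_rank (Submodule.sub_mem _ Op.id hg) hg' (pw X l₀)
  have h4 := finrank_range_pos h0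
  have h5 : S.al X (l₀ + j) + S.al X l₀ ≤ finrank W.K (W.H X) ^ (2 * j) * S.al X l₀ := by
    have h6 : S.a ((pw X l₀).prod (pw X l₀)) = S.al X l₀ := rfl
    rw [h6] at h3
    have h7 : finrank W.K (LinearMap.range (1 - g)) + 1 ≤ finrank W.K (W.H X) ^ (2 * j) := by
      rw [← hd, ← hdim]; omega
    calc S.al X (l₀ + j) + S.al X l₀ ≤
        finrank W.K (LinearMap.range (1 - g)) * S.al X l₀ + S.al X l₀ :=
          Nat.add_le_add_right (h2.trans h3) _
      _ = (finrank W.K (LinearMap.range (1 - g)) + 1) * S.al X l₀ := by ring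
      _ ≤ _ := Nat.mul_le_mul_right _ h7
  have h8 : (S.al X (l₀ + j) : ℝ) + S.al X l₀ ≤
      ((finrank W.K (W.H X) : ℝ) ^ 2) ^ j * S.al X l₀ := by
    rw [← pow_mul]
    exact_mod_cast h5
  have h9 : (0 : ℝ) < S.al X l₀ := by exact_mod_cast hpos l₀
  nlinarith [mul_lt_mul_of_pos_right hc h9]

/-- All numerically trivial operators on an object isomorphic to a power are nilpotent. -/
lemma nilpotent_iso_close (hpos : ∀ l, 0 < S.al X l) {c : ℝ} (hc0 : 0 ≤ c) {l₀ : ℕ}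
    (hl₀ : ∀ l ≥ l₀, c * S.al X l ≤ S.al X (l + 1)) {m : ℕ}
    (hc : ((finrank W.K (W.H X) : ℝ) ^ 2) ^ (m + 1) - 1 < c ^ (m + 1))
    (θ : P ≅ pw X m) (h1 : (1 : W.H P) ≠ 0)
    {x : Module.End W.K (W.H P)} (hx : x ∈ S.NOp P P) : IsNilpotent x := by
  have hE := NOp.ext_left (Q := P) hx
  have h1' : ∀ l, S.a ((P.prod P).prod ((pw X l).prod (pw X l))) = S.al X (l + (m + 1)) := by
    intro l
    rw [S.a_iso (prodCongr (prodCongr θ θ ≪≫ pwAdd X m m) (Iso.refl _))]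
    exact S.a_pw X (by ring)
  have h2 : finrank W.K (W.H (P.prod P)) = finrank W.K (W.H X) ^ (2 * (m + 1)) := by
    rw [Pool.Agent.Y133.Half.finrank_prod, finrank_iso θ, finrank_pw, ← pow_add]
    congr 1
    ring
  obtain ⟨n, hn⟩ := nilpotent_of_close S hpos hc0 hl₀ hc h1' h2 hE
  refine ⟨n, ?_⟩
  rw [extOp_pow] at hn
  apply LinearMap.ext
  intro y
  have h3 := congrArg (fun f : Module.End W.K (W.H (P.prod P)) => f (xp W y 1)) hn
  simp only [extOp_xp, LinearMap.zero_apply, Module.End.one_apply] at h3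
  exact xp_eq_zero_right h1 h3

variable {S T}

/-- A descending sequence on a power with control of the exponent. -/
lemma exists_desc_le (hST : ∀ X, S.C X ≤ T.C X) (h1 : (1 : W.H X) ≠ 0) {q : ℕ}
    {z : W.H (pw X q)} (hz : z ∈ S.Num (pw X q)) (hz0 : z ≠ 0) {l : W.H (pw X q)}
    (hl : l ∈ S.C (pw X q)) (hl1 : W.tr (pw X q) l = 1) (N p : ℕ) :
    ∃ (m : ℕ) (P : 𝒱.Obj), m % 2 = p % 2 ∧ m ≤ N * (q + 1) + 1 ∧ Nonempty (P ≅ pw X m) ∧
      Desc S T P N := by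
  have key : ∀ N, ∃ P : 𝒱.Obj, Nonempty (P ≅ pw X (N * (q + 1))) ∧ Desc S T P N := by
    intro N
    induction N with
    | zero => exact ⟨X, ⟨eqToIso (by simp [pw])⟩, Desc.zero h1⟩
    | succ N ih =>
      obtain ⟨P, ⟨θ⟩, hP⟩ := ih
      exact ⟨P.prod (pw X q), ⟨prodCongr θ (Iso.refl _) ≪≫ pwAdd X (N * (q + 1)) q ≪≫
        eqToIso (congrArg (pw X) (by ring))⟩, hP.succ hST hz hz0 hl hl1⟩
  obtain ⟨P, ⟨θ⟩, hP⟩ := key N
  by_cases h : (N * (q + 1)) % 2 = p % 2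
  · exact ⟨N * (q + 1), P, h, by omega, ⟨θ⟩, hP⟩
  · exact ⟨N * (q + 1) + 1, P.prod X, by omega, le_rfl,
      ⟨prodCongr θ (Iso.refl _) ≪≫ pwAdd X (N * (q + 1)) 0⟩, hP.prod h1⟩

/-- **Lower bound**, explicit version: a chain of `l + 1` stable subspaces of classes of `T` on a
power of `X`. -/
theorem lower_close (hST : ∀ X, S.C X ≤ T.C X) {c : ℝ} (hc0 : 0 ≤ c) {l' : ℕ}
    (hl₀ : ∀ l ≥ l', c * S.al X l ≤ S.al X (l + 1))
    (hX : 0 < finrank W.K (W.H X)) {m : ℕ} (θ : P ≅ pw X m)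
    {j : ℕ} (hj : m + m % 2 + 2 = 2 * j)
    (hc : ((finrank W.K (W.H X) : ℝ) ^ 2) ^ j - 1 / 2 ≤ c ^ j)
    (M : ℕ → Submodule W.K (W.H P)) (hM : ∀ n, ∀ a ∈ S.Op P P, ∀ m ∈ M n, a m ∈ M n) (l : ℕ)
    (hlt : ∀ n < l, M n < M (n + 1)) (hT : M l ≤ T.C P) {n : ℕ}
    (hn : n = m % 2 + (l' + l' + 1) + 1) :
    ((l : ℝ) / 2) * S.a (pw X n) ≤ finrank W.K (T.C (pw X n)) := by
  set b := finrank W.K (W.H X) with hb
  have hb1 : (1 : ℝ) ≤ b := by exact_mod_cast hX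
  set m₀ := m % 2 with hm₀
  set Y := pw X l' with hY
  set P₀ := pw X m₀ with hP₀
  let φ : P₀.prod (Y.prod Y) ≅ pw X n :=
    prodCongr (Iso.refl _) (pwAdd X l' l') ≪≫ pwAdd X m₀ (l' + l' + 1) ≪≫
      eqToIso (congrArg (pw X) hn.symm)
  obtain ⟨g, hg, hs⟩ := S.key_chain hST P (P₀.prod (Y.prod Y)) M hM l hlt hT
  rw [T.finrank_C_iso φ] at hs
  have hdP : finrank W.K (W.H P) = b ^ (m + 1) := by rw [finrank_iso θ, finrank_pw]
  have hdP₀ : finrank W.K (W.H P₀) = b ^ (m₀ + 1) := finrank_pw _ _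
  have hal : S.a (Y.prod Y) = S.al X l' := rfl
  have haP : S.a ((P.prod P₀).prod (Y.prod Y)) = S.al X (l' + j) := by
    rw [S.a_iso (prodCongr (prodCongr θ (Iso.refl _) ≪≫ pwAdd X m m₀) (Iso.refl _))]
    exact S.a_pw X (by omega)
  have hup : S.a (pw X n) ≤ b ^ (m₀ + 1) * S.al X l' := by
    rw [← S.a_iso φ, ← hdP₀]
    exact S.a_le _ _
  have hpow := ratio_pow hc0 hl₀ j l' le_rfl
  have hb10 : (1 : ℝ) ≤ (b : ℝ) ^ (m₀ + 1) := one_le_pow₀ hb1
  have hr : ∀ i ∈ Finset.range l, (1 / 2) * ((b : ℝ) ^ (m₀ + 1)) * S.al X l' ≤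
      S.r P (g i) (P₀.prod (Y.prod Y)) := by
    intro i hi
    obtain ⟨h1, h2, h3⟩ := hg i (Finset.mem_range.1 hi)
    have h4 := S.r_lower (P₀ := P₀) h1 h2 h3 Y
    rw [haP, hdP, hdP₀, hal] at h4
    have h5 : (S.al X (l' + j) : ℝ) + (b : ℝ) ^ (m₀ + 1) * S.al X l' ≤
        S.r P (g i) (P₀.prod (Y.prod Y)) + (b : ℝ) ^ (m + 1) * (b : ℝ) ^ (m₀ + 1) *
          S.al X l' := by exact_mod_cast h4
    have h6 : (b : ℝ) ^ (m + 1) * (b : ℝ) ^ (m₀ + 1) = ((b : ℝ) ^ 2) ^ j := by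
      rw [← pow_add, ← pow_mul]
      congr 1
      omega
    rw [h6] at h5
    have h7 : (0 : ℝ) ≤ S.al X l' := Nat.cast_nonneg _
    nlinarith [mul_le_mul_of_nonneg_right hc h7, mul_le_mul_of_nonneg_right hb10 h7]
  have hsum : (l : ℝ) * ((1 / 2) * ((b : ℝ) ^ (m₀ + 1)) * S.al X l') ≤
      finrank W.K (T.C (pw X n)) := by
    calc (l : ℝ) * ((1 / 2) * ((b : ℝ) ^ (m₀ + 1)) * S.al X l')
        = ∑ i ∈ Finset.range l, (1 / 2) * ((b : ℝ) ^ (m₀ + 1)) * S.al X l' := by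
          rw [Finset.sum_const, Finset.card_range, nsmul_eq_mul]
      _ ≤ ∑ i ∈ Finset.range l, (S.r P (g i) (P₀.prod (Y.prod Y)) : ℝ) :=
          Finset.sum_le_sum hr
      _ ≤ _ := by exact_mod_cast hs
  refine le_trans ?_ hsum
  have hup' : (S.a (pw X n) : ℝ) ≤ (b : ℝ) ^ (m₀ + 1) * S.al X l' := by exact_mod_cast hup
  have h8 : ((l : ℝ) / 2) * S.a (pw X n) ≤ ((l : ℝ) / 2) * ((b : ℝ) ^ (m₀ + 1) * S.al X l') :=
    mul_le_mul_of_nonneg_left hup' (by positivity)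
  refine h8.trans (le_of_eq ?_)
  ring

/-- The rank of the intersection form is at most the dimension. -/
lemma a_le_finrank (Z : 𝒱.Obj) : S.a Z ≤ finrank W.K (S.C Z) := by
  have := S.a_add_num Z
  omega

/-- The bound if the ratios of the sequence `al` are not close to the square of the Betti
number. -/
lemma small_close {c : ℝ} (hc : 0 ≤ c) {l : ℕ}
    (h : ∀ i < l, (S.al X (i + 1) : ℝ) ≤ c * S.al X i)
    (hX : 0 < finrank W.K (W.H X)) {m₀ n : ℕ} (hm₀ : m₀ ≤ 1) (hn : n = m₀ + (l + l + 1) + 1)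
    {R : ℝ} (hR0 : 0 ≤ R)
    (hR : R * (finrank W.K (W.H X) : ℝ) ^ 2 * ((l : ℝ) + 2) ^ ((finrank W.K (W.H X)) ^ 2) *
      c ^ l ≤ ((finrank W.K (W.H X) : ℝ) ^ 2) ^ l) :
    R * S.a (pw X n) ≤ finrank W.K (T.C (pw X n)) := by
  set b := finrank W.K (W.H X) with hb
  set Y := pw X l with hY
  set P₀ := pw X m₀ with hP₀
  let φ : P₀.prod (Y.prod Y) ≅ pw X n :=
    prodCongr (Iso.refl _) (pwAdd X l l) ≪≫ pwAdd X m₀ (l + l + 1) ≪≫
      eqToIso (congrArg (pw X) hn.symm)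
  have hup : S.a (pw X n) ≤ b ^ (m₀ + 1) * S.al X l := by
    rw [← S.a_iso φ, ← finrank_pw]
    exact S.a_le _ _
  have hlow : finrank W.K (T.C (Y.prod Y)) ≤ finrank W.K (T.C (pw X n)) := by
    rw [← T.finrank_C_iso φ]
    apply T.finrank_C_le (snd P₀ (Y.prod Y))
    intro x y hxy
    have h2 : ∀ m, (1 : W.H (pw X m)) ≠ 0 := by
      intro m
      have : Nontrivial (W.H (pw X m)) := by
        apply Module.nontrivial_of_finrank_pos (R := W.K)
        rw [finrank_pw]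
        exact Nat.pow_pos hX
      exact one_ne_zero
    have h3 : xp W (1 : W.H P₀) (x - y) = 0 := by
      rw [xp, map_one, one_mul, map_sub, hxy, sub_self]
    exact sub_eq_zero.1 (xp_eq_zero_left (h2 m₀) h3)
  have hg := T.growth X l
  have hg' : (b : ℝ) ^ (2 * (l + 1)) ≤ finrank W.K (T.C (Y.prod Y)) * ((l + 2 : ℕ) : ℝ) ^ (b ^ 2) := by
    exact_mod_cast hg
  have h5 : (S.al X l : ℝ) ≤ c ^ l * S.al X 0 := geom_le hc h
  have hb1 : (1 : ℝ) ≤ b := by exact_mod_cast hX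
  have h50 : (S.al X 0 : ℝ) ≤ (b : ℝ) ^ 2 := by
    have h51 : S.al X 0 ≤ finrank W.K (W.H ((pw X 0).prod (pw X 0))) :=
      (a_le_finrank _).trans (Submodule.finrank_le _)
    rw [Pool.Agent.Y133.Half.finrank_prod] at h51
    have h52 : finrank W.K (W.H (pw X 0)) = b := rfl
    rw [h52] at h51
    have h53 : (S.al X 0 : ℝ) ≤ (b : ℝ) * b := by exact_mod_cast h51
    linarith [sq (b : ℝ)]
  have h6 : (S.a (pw X n) : ℝ) ≤ (b : ℝ) ^ 2 * S.al X l := by
    have h7 : (S.a (pw X n) : ℝ) ≤ (b : ℝ) ^ (m₀ + 1) * S.al X l := by exact_mod_cast hup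
    refine h7.trans (mul_le_mul_of_nonneg_right ?_ (Nat.cast_nonneg _))
    exact pow_le_pow_right₀ hb1 (by omega)
  have h8 : (0 : ℝ) < ((l + 2 : ℕ) : ℝ) ^ (b ^ 2) := by positivity
  have h9 : ((l + 2 : ℕ) : ℝ) = (l : ℝ) + 2 := by push_cast; ring
  have hcl : 0 ≤ c ^ l := pow_nonneg hc l
  have h10 : (R * S.a (pw X n)) * ((l + 2 : ℕ) : ℝ) ^ (b ^ 2) ≤
      finrank W.K (T.C (Y.prod Y)) * ((l + 2 : ℕ) : ℝ) ^ (b ^ 2) := by
    calc (R * S.a (pw X n)) * ((l + 2 : ℕ) : ℝ) ^ (b ^ 2)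
        ≤ (R * ((b : ℝ) ^ 2 * (c ^ l * (b : ℝ) ^ 2))) * ((l + 2 : ℕ) : ℝ) ^ (b ^ 2) := by
          refine mul_le_mul_of_nonneg_right (mul_le_mul_of_nonneg_left ?_ hR0) h8.le
          refine h6.trans (mul_le_mul_of_nonneg_left ?_ (by positivity))
          exact h5.trans (mul_le_mul_of_nonneg_left h50 hcl)
      _ = (b : ℝ) ^ 2 * (R * (b : ℝ) ^ 2 * ((l : ℝ) + 2) ^ (b ^ 2) * c ^ l) := by rw [h9]; ring
      _ ≤ (b : ℝ) ^ 2 * ((b : ℝ) ^ 2) ^ l := mul_le_mul_of_nonneg_left hR (by positivity)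
      _ = (b : ℝ) ^ (2 * (l + 1)) := by ring
      _ ≤ _ := hg'
  have h11 := le_of_mul_le_mul_right h10 h8
  exact h11.trans (by exact_mod_cast hlow)

/-- **The effective zero-infinity law for numerical equivalence.** For systems `S ≤ T` of classes:
if some nonzero class of `S` on the power `X^(q+1)` is numerically trivial, then the dimension of the
classes of `T` on `X^(n+1)` is at least `log (n + 1) / (64 (q + 1) log (b + 1))` times the rank of the
intersection form on the classes of `S`, where `b` is the sum of the Betti numbers of `X`. -/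
theorem num_log (hST : ∀ X, S.C X ≤ T.C X) (X : 𝒱.Obj) {q : ℕ} (hq : S.Num (pw X q) ≠ ⊥)
    (n : ℕ) : Real.log (n + 1) * S.a (pw X n) ≤
      64 * (q + 1) * Real.log (finrank W.K (W.H X) + 1) * finrank W.K (T.C (pw X n)) := by
  set b := finrank W.K (W.H X) with hb
  have hlogb : 0 ≤ Real.log ((b : ℝ) + 1) :=
    Real.log_nonneg (by linarith [(Nat.cast_nonneg b : (0 : ℝ) ≤ b)])
  have hq0 : (0 : ℝ) ≤ q := Nat.cast_nonneg q
  have hRHS : 0 ≤ 64 * (q + 1) * Real.log ((b : ℝ) + 1) * finrank W.K (T.C (pw X n)) := by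
    positivity
  by_cases hZ : ∀ l ∈ S.C X, W.tr X l = 0
  · rw [S.a_eq_zero_of hZ n, Nat.cast_zero, mul_zero]; exact hRHS
  push Not at hZ
  obtain ⟨l', hl', hl'0⟩ := hZ
  obtain ⟨l, hl, hl1⟩ : ∃ l ∈ S.C X, W.tr X l = 1 :=
    ⟨(W.tr X l')⁻¹ • l', Submodule.smul_mem _ _ hl', by
      rw [map_smul, smul_eq_mul, inv_mul_cancel₀ hl'0]⟩
  have h1 : (1 : W.H X) ≠ 0 := one_ne_zero_of (ne_zero_of_tr hl1)
  have hX : 0 < b := by
    have : Nontrivial (W.H X) := ⟨⟨1, 0, h1⟩⟩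
    exact Module.finrank_pos
  have hpos : ∀ n, 0 < S.al X n := by
    intro n
    obtain ⟨m, hm, hm1⟩ := S.exists_lam hl hl1 n
    refine S.a_pos (xp_mem_C S hm hm) ?_
    rw [tr_xp, hm1, mul_one]
  have haT : S.a (pw X n) ≤ finrank W.K (T.C (pw X n)) :=
    (a_le_finrank _).trans (Submodule.finrank_mono (hST _))
  have haT' : (S.a (pw X n) : ℝ) ≤ finrank W.K (T.C (pw X n)) := by exact_mod_cast haT
  have ha0 : (0 : ℝ) ≤ S.a (pw X n) := Nat.cast_nonneg _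
  set B := Real.log ((b : ℝ) + 1) with hB
  set L := Real.log ((n : ℝ) + 1) with hL
  have hb1 : (1 : ℝ) ≤ b := by exact_mod_cast hX
  have hlog2 : (0.69 : ℝ) < Real.log 2 := by
    have := Real.log_two_gt_d9
    linarith
  have hB0 : (0.69 : ℝ) < B := by
    rw [hB]
    exact lt_of_lt_of_le hlog2 (Real.log_le_log (by norm_num) (by linarith))
  have hqB : 0 < ((q : ℝ) + 1) * B := by positivity
  set x := L / ((q + 1) * B) with hx
  have hxL : L = x * ((q + 1) * B) := by rw [hx]; field_simp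
  rcases le_or_gt x 64 with h64 | h64
  · calc L * S.a (pw X n) ≤ (64 * ((q + 1) * B)) * S.a (pw X n) := by
          apply mul_le_mul_of_nonneg_right _ ha0
          rw [hxL]
          exact mul_le_mul_of_nonneg_right h64 hqB.le
      _ ≤ (64 * ((q + 1) * B)) * finrank W.K (T.C (pw X n)) :=
          mul_le_mul_of_nonneg_left haT' (by positivity)
      _ = _ := by ring
  -- the main case
  have hL44 : (44 : ℝ) ≤ L := by
    have hqB' : B ≤ ((q : ℝ) + 1) * B := by nlinarith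
    have : 64 * B ≤ L := by
      rw [hxL]
      nlinarith
    linarith
  have hn0 : (0 : ℝ) < (n : ℝ) + 1 := by positivity
  have hexpL : Real.exp L = (n : ℝ) + 1 := by rw [hL, Real.exp_log hn0]
  have hn45 : (45 : ℝ) ≤ (n : ℝ) + 1 := by
    rw [← hexpL]
    linarith [Real.add_one_le_exp L]
  have hn44 : 44 ≤ n := by
    have : (44 : ℝ) ≤ n := by linarith
    exact_mod_cast this
  set N := ⌊x / 16⌋₊ with hN
  have hNle : (N : ℝ) ≤ x / 16 := Nat.floor_le (by linarith)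
  have hNge : x / 16 - 1 < N := by linarith [Nat.lt_floor_add_one (x / 16)]
  set M := N * (q + 1) + 2 with hM
  obtain ⟨lv, hlv⟩ : ∃ lv, n = n % 2 + (lv + lv + 1) + 1 := ⟨(n - n % 2 - 2) / 2, by omega⟩
  have hlv1 : Real.exp L ≤ 4 * lv := by
    rw [hexpL]
    have : n + 1 ≤ 4 * lv := by omega
    exact_mod_cast this
  have hlv2 : (lv : ℝ) + 2 ≤ Real.exp L := by
    rw [hexpL]
    have : lv + 2 ≤ n + 1 := by omega
    exact_mod_cast this
  have hkey := key_real (L := L) (B := B) (x := x) q b N M lv hB hX hxL h64.le hNle hM hlv1 hlv2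
  set η : ℝ := 1 / (2 * M * (b : ℝ) ^ (2 * M)) with hη
  have hM2 : (2 : ℝ) ≤ M := by
    rw [hM]; push_cast
    have : (0 : ℝ) ≤ N * (q + 1) := by positivity
    linarith
  have hbM1 : (1 : ℝ) ≤ (b : ℝ) ^ (2 * M) := one_le_pow₀ hb1
  have hden : (0 : ℝ) < 2 * M * (b : ℝ) ^ (2 * M) := by positivity
  have hden1 : (1 : ℝ) ≤ 2 * M * (b : ℝ) ^ (2 * M) := by nlinarith
  have hη0 : 0 < η := by rw [hη]; positivity
  have hη1 : η ≤ 1 := by rw [hη, div_le_one hden]; exact hden1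
  have hηM : (b : ℝ) ^ (2 * M) * (M * η) = 1 / 2 := by
    rw [hη]; field_simp
  -- the constant
  set c : ℝ := (b : ℝ) ^ 2 * (1 - η) with hc
  have hc0 : 0 ≤ c := mul_nonneg (by positivity) (by linarith)
  have hcj : ∀ j ≤ M, ((b : ℝ) ^ 2) ^ j - 1 / 2 ≤ c ^ j := by
    intro j hj
    refine close_pow (by positivity) hη0.le hη1 j ?_
    have hjM : (j : ℝ) ≤ M := by exact_mod_cast hj
    have : ((b : ℝ) ^ 2) ^ j ≤ (b : ℝ) ^ (2 * M) := by
      rw [← pow_mul]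
      exact pow_le_pow_right₀ hb1 (by omega)
    rw [← hηM]
    exact mul_le_mul this (mul_le_mul_of_nonneg_right hjM hη0.le) (by positivity) (by positivity)
  -- the final step
  have hfin : (((N + 1 : ℕ) : ℝ) / 2) * S.a (pw X n) ≤ finrank W.K (T.C (pw X n)) := by
    rcases le_or_gt (c * S.al X lv) (S.al X (lv + 1)) with hcase | hcase
    · have hA : ∀ i ≥ lv, c * S.al X i ≤ S.al X (i + 1) := fun i hi =>
        ratio_mono hpos (S.al_convex X) hcase hi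
      obtain ⟨z, hz, hz0⟩ := Submodule.exists_mem_ne_zero_of_ne_bot hq
      obtain ⟨m', hm', hm1'⟩ := S.exists_lam hl hl1 q
      obtain ⟨m, P, hpar, hmle, ⟨θ⟩, hP⟩ := exists_desc_le hST h1 hz hz0 hm' hm1' N n
      have h1P : (1 : W.H P) ≠ 0 := by
        have : Nontrivial (W.H P) := by
          apply Module.nontrivial_of_finrank_pos (R := W.K)
          rw [finrank_iso θ, finrank_pw]
          exact Nat.pow_pos hX
        exact one_ne_zero
      obtain ⟨Mc, hMs, hlt, hMT⟩ := hP.chain hST fun x hx =>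
        nilpotent_iso_close S hpos hc0 hA (by
          have := hcj (m + 1) (by omega)
          linarith) θ h1P hx
      have hn' : n = m % 2 + (lv + lv + 1) + 1 := by rw [hpar]; exact hlv
      exact lower_close hST hc0 hA hX θ (j := (m + m % 2 + 2) / 2) (by omega)
        (hcj _ (by omega)) Mc hMs (N + 1) hlt hMT hn'
    · have hBc : ∀ i < lv, (S.al X (i + 1) : ℝ) ≤ c * S.al X i := fun i hi =>
        ratio_le_of_lt hpos (S.al_convex X) hcase hi.le
      refine small_close hc0 hBc hX (m₀ := n % 2) (by omega) hlv (by positivity) ?_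
      rw [hc, mul_pow]
      have h7 : (0 : ℝ) ≤ ((b : ℝ) ^ 2) ^ lv := by positivity
      calc ((N + 1 : ℕ) : ℝ) / 2 * (b : ℝ) ^ 2 * ((lv : ℝ) + 2) ^ (b ^ 2) *
            (((b : ℝ) ^ 2) ^ lv * (1 - η) ^ lv)
          = ((b : ℝ) ^ 2) ^ lv * (((N + 1 : ℕ) : ℝ) / 2 * (b : ℝ) ^ 2 *
              ((lv : ℝ) + 2) ^ (b ^ 2) * (1 - η) ^ lv) := by ring
        _ ≤ ((b : ℝ) ^ 2) ^ lv * 1 := mul_le_mul_of_nonneg_left hkey h7
        _ = _ := mul_one _
  have hx32 : x / 64 ≤ ((N + 1 : ℕ) : ℝ) / 2 := by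
    push_cast
    linarith
  calc L * S.a (pw X n) = (64 * ((q + 1) * B)) * ((x / 64) * S.a (pw X n)) := by
        rw [hxL]; ring
    _ ≤ (64 * ((q + 1) * B)) * ((((N + 1 : ℕ) : ℝ) / 2) * S.a (pw X n)) := by
        apply mul_le_mul_of_nonneg_left _ (by positivity)
        exact mul_le_mul_of_nonneg_right hx32 ha0
    _ ≤ (64 * ((q + 1) * B)) * finrank W.K (T.C (pw X n)) :=
        mul_le_mul_of_nonneg_left hfin (by positivity)
    _ = _ := by ring

end Pool.Agent.X312.DL
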